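import Mathlib

/-!
# MP_54b381_gt: linearly ordered coarse spaces embed in linearly ordered coarse spaces with an
interval base
-/

set_option autoImplicit false

namespace Pool.Agent.Results.MP_54b381_gt.IntervalBase

universe u

/-- A coarse structure on `X`. -/
structure Coarse (X : Type u) where
  /-- the entourages -/
  ent : Set (Set (X × X))
  diag : ∀ E ∈ ent, ∀ x, (x, x) ∈ E
  comp : ∀ E ∈ ent, ∀ F ∈ ent, {p : X × X | ∃ z, (p.1, z) ∈ E ∧ (z, p.2) ∈ F} ∈ ent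
  inv : ∀ E ∈ ent, {p : X × X | (p.2, p.1) ∈ E} ∈ ent
  sub : ∀ E ∈ ent, ∀ F, F ⊆ E → (∀ x, (x, x) ∈ F) → F ∈ ent

variable {X : Type u}

/-- the ball `E[x]` -/
def ball (E : Set (X × X)) (x : X) : Set X := {y | (x, y) ∈ E}

/-- The coarse space is connected: for all `x, y` some entourage `E` has `y ∈ E[x]`. -/
def Connected (C : Coarse X) : Prop := ∀ x y, ∃ E ∈ C.ent, y ∈ ball E x

/-- The linear order of `X` is compatible with the coarse structure. -/
def Compatible [LinearOrder X] (C : Coarse X) : Prop :=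
  ∀ E ∈ C.ent, ∃ F ∈ C.ent, ∀ x y, x < y → y ∉ ball F x → ∀ x' ∈ ball E x, x' < y

/-- The coarse structure has a base all of whose balls are intervals `[a, b]` with `a ≤ b`. -/
def HasIntervalBase [LinearOrder X] (C : Coarse X) : Prop :=
  ∃ B ⊆ C.ent, (∀ E ∈ C.ent, ∃ E' ∈ B, E ⊆ E') ∧
    ∀ E' ∈ B, ∀ x, ∃ a b, a ≤ b ∧ ball E' x = Set.Icc a b

/-- The map `f` is an asymorphism of `(X, C)` onto a subspace of `(Z, D)`. -/
def IsAsymorphicEmbedding {Z : Type u} (C : Coarse X) (D : Coarse Z) (f : X → Z) : Prop :=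
  Function.Injective f ∧
    (∀ E ∈ C.ent, ∃ F ∈ D.ent, ∀ x y, (x, y) ∈ E → (f x, f y) ∈ F) ∧
    (∀ F ∈ D.ent, ∃ E ∈ C.ent, ∀ x y, (f x, f y) ∈ F → (x, y) ∈ E)

section
variable [LinearOrder X]

/-- cuts with a side: `(L, false)` is the point just above `L`, and `(L, true)` the point just
below the complement of `L` -/
abbrev P (X : Type u) [LinearOrder X] : Type u := LowerSet X ×ₗ Bool

/-- `x` lies on the side of `z` -/
def inn (z : P X) (x : X) : Prop :=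
  if (ofLex z).2 = true then x ∉ (ofLex z).1 else x ∈ (ofLex z).1

/-- `u` lies between `x` and the cut `z` -/
def tl (z : P X) (x u : X) : Prop := inn z u ∧ if (ofLex z).2 = true then u ≤ x else x ≤ u

theorem tl_self {z : P X} {x : X} (h : inn z x) : tl z x x := by
  refine ⟨h, ?_⟩
  split_ifs <;> exact le_rfl

theorem tl_common {z : P X} {x y : X} (hx : inn z x) (hy : inn z y) :
    ∃ w, inn z w ∧ ∀ u, tl z w u → tl z x u ∧ tl z y u := by
  unfold tl
  by_cases h : (ofLex z).2 = true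
  · simp only [if_pos h]
    rcases le_total x y with h1 | h1
    · exact ⟨x, hx, fun u hu => ⟨hu, hu.1, hu.2.trans h1⟩⟩
    · exact ⟨y, hy, fun u hu => ⟨⟨hu.1, hu.2.trans h1⟩, hu⟩⟩
  · simp only [if_neg h]
    rcases le_total x y with h1 | h1
    · exact ⟨y, hy, fun u hu => ⟨⟨hu.1, h1.trans hu.2⟩, hu⟩⟩
    · exact ⟨x, hx, fun u hu => ⟨hu, hu.1, h1.trans hu.2⟩⟩

/-- closeness of two points -/
def Near (E : Set (X × X)) (z z' : P X) : Prop :=
  ∃ x, inn z x ∧ ∃ x', inn z' x' ∧ ∀ u v, tl z x u → tl z' x' v → (u, v) ∈ E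

theorem Near.mono {E F : Set (X × X)} (hEF : E ⊆ F) {z z' : P X} (h : Near E z z') :
    Near F z z' := by
  obtain ⟨x, hx, x', hx', h⟩ := h
  exact ⟨x, hx, x', hx', fun u v hu hv => hEF (h u v hu hv)⟩

theorem Near.symm {E : Set (X × X)} {z z' : P X} (h : Near E z z') :
    Near {p | (p.2, p.1) ∈ E} z' z := by
  obtain ⟨x, hx, x', hx', h⟩ := h
  exact ⟨x', hx', x, hx, fun u v hu hv => h v u hv hu⟩

theorem Near.comp {E F : Set (X × X)} {z z' z'' : P X} (h : Near E z z') (h' : Near F z' z'') :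
    Near {p | ∃ w, (p.1, w) ∈ E ∧ (w, p.2) ∈ F} z z'' := by
  obtain ⟨x, hx, x', hx', h⟩ := h
  obtain ⟨y', hy', y'', hy'', h'⟩ := h'
  obtain ⟨w, hw, hw'⟩ := tl_common hx' hy'
  have h1 := hw' w (tl_self hw)
  exact ⟨x, hx, y'', hy'', fun u v hu hv => ⟨w, h u w hu h1.1, h' w v h1.2 hv⟩⟩

theorem lt_cases {z z' : P X} (h : z < z') :
    (ofLex z).1 < (ofLex z').1 ∨
      (ofLex z).1 = (ofLex z').1 ∧ (ofLex z).2 = false ∧ (ofLex z').2 = true := by
  rw [Prod.Lex.lt_iff] at h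
  rcases h with h | ⟨h, h'⟩
  · exact Or.inl h
  · refine Or.inr ⟨h, ?_⟩
    revert h'
    cases (ofLex z).2 <;> cases (ofLex z').2 <;> decide

theorem exists_mem_of_lt {L M : LowerSet X} (h : L < M) : ∃ y, y ∈ M ∧ y ∉ L := by
  by_contra hcon
  push Not at hcon
  exact absurd (show M ≤ L from fun y hy => hcon y hy) (not_le.2 h)

theorem lt_of_mem_of_notMem {L : LowerSet X} {x y : X} (hx : x ∈ L) (hy : y ∉ L) : x < y := by
  by_contra hcon
  exact hy (L.lower (not_lt.1 hcon) hx)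

/-- the sides of two different points are separated -/
theorem before {z z' : P X} (h : z < z') {x₀ x₀' : X} (hx₀ : inn z x₀) (hx₀' : inn z' x₀') :
    ∃ x, inn z x ∧ ∃ x', inn z' x' ∧ ∀ u v, tl z x u → tl z' x' v → u ≤ v := by
  rcases lt_cases h with h | ⟨h, h1, h2⟩
  · obtain ⟨y, hy, hy'⟩ := exists_mem_of_lt h
    by_cases h1 : (ofLex z).2 = true <;> by_cases h2 : (ofLex z').2 = true
    · refine ⟨y, by simp only [inn, h1]; exact hy', x₀', hx₀', fun u v hu hv => ?_⟩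
      simp only [tl, inn, h1, h2] at hu hv
      exact hu.2.trans (lt_of_mem_of_notMem hy hv.1).le
    · refine ⟨y, by simp only [inn, h1]; exact hy', y, by simp only [inn, h2]; exact hy,
        fun u v hu hv => ?_⟩
      simp only [tl, inn, h1, h2] at hu hv
      exact hu.2.trans hv.2
    · refine ⟨x₀, hx₀, x₀', hx₀', fun u v hu hv => ?_⟩
      simp only [tl, inn, h1, h2] at hu hv
      exact (lt_of_mem_of_notMem (h.le hu.1) hv.1).le
    · refine ⟨x₀, hx₀, y, by simp only [inn, h2]; exact hy, fun u v hu hv => ?_⟩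
      simp only [tl, inn, h1, h2] at hu hv
      exact (lt_of_mem_of_notMem hu.1 hy').le.trans hv.2
  · refine ⟨x₀, hx₀, x₀', hx₀', fun u v hu hv => ?_⟩
    simp only [tl, inn, h1, h2, ← h] at hu hv
    exact (lt_of_mem_of_notMem hu.1 hv.1).le

/-- symmetric entourages which are hereditary with respect to intervals -/
structure Good (E : Set (X × X)) : Prop where
  symm : ∀ a b, (a, b) ∈ E → (b, a) ∈ E
  her : ∀ a b c d, (a, b) ∈ E → a ≤ c → c ≤ b → a ≤ d → d ≤ b → (c, d) ∈ E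

theorem Near.symm' {E : Set (X × X)} (hE : Good E) {z z' : P X} (h : Near E z z') :
    Near E z' z := h.symm.mono fun _ hp => hE.symm _ _ hp

theorem near_between {E : Set (X × X)} (hE : Good E) {z z' z'' : P X} (h : Near E z z'')
    {x₀ : X} (hx₀ : inn z' x₀) (h1 : z < z') (h2 : z' < z'') : Near E z z' ∧ Near E z' z'' := by
  obtain ⟨x, hx, x'', hx'', h⟩ := h
  obtain ⟨a, ha, a', ha', h3⟩ := before h1 hx hx₀
  obtain ⟨b', hb', b'', hb'', h4⟩ := before h2 hx₀ hx''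
  obtain ⟨w, hw, hw1⟩ := tl_common hx ha
  obtain ⟨w', hw', hw1'⟩ := tl_common ha' hb'
  obtain ⟨w'', hw'', hw1''⟩ := tl_common hx'' hb''
  constructor
  · refine ⟨w, hw, w', hw', fun u v hu hv => ?_⟩
    have e1 := hw1 u hu
    have e2 := hw1' v hv
    have e3 := hw1'' w'' (tl_self hw'')
    have e4 := h u w'' e1.1 e3.1
    have e5 := h3 u v e1.2 e2.1
    have e6 := h4 v w'' e2.2 e3.2
    exact hE.her _ _ _ _ e4 le_rfl (e5.trans e6) e5 e6
  · refine ⟨w', hw', w'', hw'', fun v t hv ht => ?_⟩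
    have e1 := hw1 w (tl_self hw)
    have e2 := hw1' v hv
    have e3 := hw1'' t ht
    have e4 := h w t e1.1 e3.1
    have e5 := h3 w v e1.2 e2.1
    have e6 := h4 v t e2.2 e3.2
    exact hE.her _ _ _ _ e4 e5 e6 (e5.trans e6) le_rfl

variable (C : Coarse X)

theorem exists_good (hC : Compatible C) {E : Set (X × X)} (hE : E ∈ C.ent) :
    ∃ D ∈ C.ent, E ⊆ D ∧ Good D := by
  let E1 : Set (X × X) := {p | ∃ z, (p.1, z) ∈ E ∧ (z, p.2) ∈ {q : X × X | (q.2, q.1) ∈ E}}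
  have hE1 : E1 ∈ C.ent := C.comp E hE _ (C.inv E hE)
  have hsub : ∀ a b, (a, b) ∈ E → (a, b) ∈ E1 := fun a b h => ⟨b, h, C.diag E hE b⟩
  have hsymm : ∀ a b, (a, b) ∈ E1 → (b, a) ∈ E1 := by
    rintro a b ⟨z, hz, hz'⟩
    exact ⟨z, hz', hz⟩
  obtain ⟨F, hF, hF'⟩ := hC E1 hE1
  have hF2 : ∀ a b c, (a, b) ∈ E1 → a ≤ c → c ≤ b → (a, c) ∈ F := by
    intro a b c hab hac hcb
    rcases hac.lt_or_eq with h | h
    · by_contra hcon
      exact absurd (hF' a c h hcon b hab) (not_lt.2 hcb)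
    · rw [← h]
      exact C.diag F hF a
  let D : Set (X × X) := {p | ∃ a b, (a, b) ∈ E1 ∧ a ≤ p.1 ∧ p.1 ≤ b ∧ a ≤ p.2 ∧ p.2 ≤ b}
  have hD : D ∈ C.ent := by
    refine C.sub _ (C.comp _ (C.inv F hF) F hF) D ?_ ?_
    · rintro ⟨c, d⟩ ⟨a, b, hab, h1, h2, h3, h4⟩
      exact ⟨a, hF2 a b c hab h1 h2, hF2 a b d hab h3 h4⟩
    · intro x
      exact ⟨x, x, C.diag E1 hE1 x, le_rfl, le_rfl, le_rfl, le_rfl⟩
  refine ⟨D, hD, ?_, ?_, ?_⟩
  · rintro ⟨a, b⟩ hab
    rcases le_total a b with h | h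
    · exact ⟨a, b, hsub a b hab, le_rfl, h, h, le_rfl⟩
    · exact ⟨b, a, hsymm _ _ (hsub a b hab), h, le_rfl, le_rfl, h⟩
  · rintro c d ⟨a, b, hab, h1, h2, h3, h4⟩
    exact ⟨a, b, hab, h3, h4, h1, h2⟩
  · rintro a b c d ⟨a', b', hab, h1, h2, h3, h4⟩ h5 h6 h7 h8
    exact ⟨a', b', hab, h1.trans h5, h6.trans h4, h1.trans h7, h8.trans h4⟩

/-- the points of the extension -/
abbrev Z : Type u := {z : P X // ∃ x, inn z x ∧ ∃ E ∈ C.ent, ∀ u, tl z x u → (x, u) ∈ E}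

variable {C}

/-- the coarse structure of the extension -/
def coarseZ (C : Coarse X) : Coarse (Z C) where
  ent := {S | (∀ z, (z, z) ∈ S) ∧ ∃ E ∈ C.ent, ∀ z z' : Z C, (z, z') ∈ S → z = z' ∨ Near E z.1 z'.1}
  diag := fun S hS => hS.1
  comp := by
    rintro S ⟨hS, E, hE, hSE⟩ S' ⟨hS', E', hE', hSE'⟩
    refine ⟨fun z => ⟨z, hS z, hS' z⟩, _, C.comp E hE E' hE', ?_⟩
    rintro z z'' ⟨z', h, h'⟩
    have e1 : E ⊆ {p : X × X | ∃ w, (p.1, w) ∈ E ∧ (w, p.2) ∈ E'} :=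
      fun p hp => ⟨p.2, hp, C.diag E' hE' _⟩
    have e2 : E' ⊆ {p : X × X | ∃ w, (p.1, w) ∈ E ∧ (w, p.2) ∈ E'} :=
      fun p hp => ⟨p.1, C.diag E hE _, hp⟩
    rcases hSE z z' h with rfl | h1 <;> rcases hSE' _ z'' h' with h2 | h2
    · exact Or.inl h2
    · exact Or.inr (h2.mono e2)
    · subst h2
      exact Or.inr (h1.mono e1)
    · exact Or.inr (h1.comp h2)
  inv := by
    rintro S ⟨hS, E, hE, hSE⟩
    refine ⟨fun z => hS z, _, C.inv E hE, ?_⟩
    intro z z' h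
    rcases hSE z' z h with h1 | h1
    · exact Or.inl h1.symm
    · exact Or.inr h1.symm
  sub := by
    rintro S ⟨hS, E, hE, hSE⟩ S' hS' h
    exact ⟨h, E, hE, fun z z' hz => hSE z z' (hS' hz)⟩

theorem connectedZ (h : Connected C) : Connected (coarseZ C) := by
  rintro ⟨z, x, hx, E, hE, hzE⟩ ⟨z', x', hx', E', hE', hzE'⟩
  obtain ⟨F, hF, hxx⟩ := h x x'
  let K : Set (X × X) := {p | ∃ w, (p.1, w) ∈ {p : X × X | ∃ w, (p.1, w) ∈
    {p : X × X | (p.2, p.1) ∈ E} ∧ (w, p.2) ∈ F} ∧ (w, p.2) ∈ E'}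
  have hK : K ∈ C.ent := C.comp _ (C.comp _ (C.inv E hE) F hF) E' hE'
  refine ⟨{p | p.1 = p.2 ∨ Near K p.1.1 p.2.1}, ⟨fun _ => Or.inl rfl, K, hK, fun _ _ h => h⟩,
    Or.inr ⟨x, hx, x', hx', fun u v hu hv => ?_⟩⟩
  exact ⟨x', ⟨x, hzE u hu, hxx⟩, hzE' v hv⟩

theorem compatibleZ (h : Compatible C) : Compatible (coarseZ C) := by
  rintro S ⟨hS, E, hE, hSE⟩
  obtain ⟨D, hD, hED, hG⟩ := exists_good C h hE
  refine ⟨{p | p.1 = p.2 ∨ Near D p.1.1 p.2.1}, ⟨fun _ => Or.inl rfl, D, hD, fun _ _ h => h⟩, ?_⟩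
  intro z y hzy hy z' hz'
  by_contra hcon
  rw [not_lt] at hcon
  apply hy
  rcases hSE z z' hz' with h1 | h1
  · rw [← h1] at hcon
    exact absurd hzy (not_lt.2 hcon)
  · rcases hcon.lt_or_eq with h2 | h2
    · obtain ⟨x, hx, -⟩ := y.2
      exact Or.inr (near_between hG (h1.mono hED) hx hzy h2).1
    · rw [h2]
      exact Or.inr (h1.mono hED)

/-- the embedding -/
def emb (h : Connected C) (x : X) : Z C :=
  ⟨toLex (LowerSet.Iic x, false), x, by simp [inn], by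
    obtain ⟨E, hE, -⟩ := h x x
    refine ⟨E, hE, fun u hu => ?_⟩
    simp only [tl, inn, ofLex_toLex, LowerSet.mem_Iic_iff] at hu
    have h1 : u = x := le_antisymm hu.1 hu.2
    rw [h1]
    exact C.diag E hE x⟩

/-- the lower set of a point -/
abbrev low (z : Z C) : LowerSet X := (ofLex z.1).1

theorem emb_le (h : Connected C) {x : X} {z : Z C} (hx : x ∈ low z) : emb h x ≤ z := by
  change toLex (LowerSet.Iic x, false) ≤ z.1
  rw [Prod.Lex.le_iff]
  have h1 : LowerSet.Iic x ≤ low z := by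
    intro y hy
    exact (low z).lower hy hx
  rcases h1.lt_or_eq with h2 | h2
  · exact Or.inl h2
  · exact Or.inr ⟨h2, Bool.false_le _⟩

theorem mem_low_of_emb_le (h : Connected C) {x : X} {z : Z C} (hx : emb h x ≤ z) : x ∈ low z := by
  change toLex (LowerSet.Iic x, false) ≤ z.1 at hx
  rw [Prod.Lex.le_iff] at hx
  have h1 : LowerSet.Iic x ≤ low z := by
    rcases hx with h2 | h2
    · exact h2.le
    · exact h2.1.le
  exact h1 (by simp)

theorem lt_emb (h : Connected C) {x : X} {z : Z C} (hx : x ∉ low z) : z < emb h x := by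
  by_contra hcon
  exact hx (mem_low_of_emb_le h (not_lt.1 hcon))

theorem emb_strictMono (h : Connected C) : StrictMono (emb h) := by
  intro x y hxy
  refine lt_emb h ?_
  simp only [low, emb, ofLex_toLex, LowerSet.mem_Iic_iff]
  exact not_le.2 hxy

theorem near_emb_iff (h : Connected C) {E : Set (X × X)} {x y : X} :
    Near E (emb h x).1 (emb h y).1 ↔ (x, y) ∈ E := by
  constructor
  · rintro ⟨a, ha, b, hb, h1⟩
    refine h1 x y ?_ ?_
    · simp only [inn, emb, ofLex_toLex, LowerSet.mem_Iic_iff] at ha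
      simp only [tl, inn, emb, ofLex_toLex, LowerSet.mem_Iic_iff]
      exact ⟨le_rfl, ha⟩
    · simp only [inn, emb, ofLex_toLex, LowerSet.mem_Iic_iff] at hb
      simp only [tl, inn, emb, ofLex_toLex, LowerSet.mem_Iic_iff]
      exact ⟨le_rfl, hb⟩
  · intro h1
    refine ⟨x, by simp [inn, emb], y, by simp [inn, emb], fun u v hu hv => ?_⟩
    simp only [tl, inn, emb, ofLex_toLex, LowerSet.mem_Iic_iff] at hu hv
    have h2 : u = x := le_antisymm hu.1 hu.2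
    have h3 : v = y := le_antisymm hv.1 hv.2
    rw [h2, h3]
    exact h1

theorem betweenZ {E : Set (X × X)} (hE : Good E) {z z' z'' : Z C} (h : Near E z.1 z''.1)
    (h1 : z < z') (h2 : z' < z'') : Near E z.1 z'.1 ∧ Near E z'.1 z''.1 := by
  obtain ⟨x, hx, -⟩ := z'.2
  exact near_between hE h hx h1 h2

theorem low_lt_low {z z' z'' : Z C} (h1 : z < z') (h2 : z' < z'') : low z < low z'' := by
  rcases lt_cases (show z.1 < z'.1 from h1) with h3 | ⟨h3, h4, h5⟩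
  · exact h3.trans_le ((Prod.Lex.monotone_fst _ _ h2.le))
  · rcases lt_cases (show z'.1 < z''.1 from h2) with h6 | ⟨h6, h7, h8⟩
    · exact h3.le.trans_lt h6
    · rw [h5] at h7
      exact absurd h7 (by decide)

theorem exists_hi (hc : Connected C) {E : Set (X × X)} (hE : E ∈ C.ent) (hG : Good E) (z : Z C) :
    ∃ hi : Z C, z ≤ hi ∧
      (z = hi ∨ Near {p : X × X | ∃ w, (p.1, w) ∈ E ∧ (w, p.2) ∈ E} z.1 hi.1) ∧
      ∀ z', z ≤ z' → (z = z' ∨ Near E z.1 z'.1) → z' ≤ hi := by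
  have hsub : E ⊆ {p : X × X | ∃ w, (p.1, w) ∈ E ∧ (w, p.2) ∈ E} :=
    fun p hp => ⟨p.2, hp, C.diag E hE _⟩
  by_cases hmax : ∃ hi : Z C, (z ≤ hi ∧ (z = hi ∨ Near E z.1 hi.1)) ∧
      ∀ z', z ≤ z' → (z = z' ∨ Near E z.1 z'.1) → z' ≤ hi
  · obtain ⟨hi, ⟨h1, h2⟩, h3⟩ := hmax
    exact ⟨hi, h1, h2.imp id fun h => h.mono hsub, h3⟩
  push Not at hmax
  -- the set `Y`
  let Y : Set (Z C) := {z' | z ≤ z' ∧ (z = z' ∨ Near E z.1 z'.1)}
  have hY : ∀ z' ∈ Y, ∃ z'' ∈ Y, z' < z'' := by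
    rintro z' ⟨h1, h2⟩
    obtain ⟨z'', h3, h4, h5⟩ := hmax z' ⟨h1, h2⟩
    exact ⟨z'', ⟨h3, h4⟩, h5⟩
  have hYn : ∀ z' ∈ Y, z < z' → Near E z.1 z'.1 := fun z' hz' h =>
    hz'.2.resolve_left h.ne
  obtain ⟨z0, hz0, h0⟩ := hY z ⟨le_rfl, Or.inl rfl⟩
  obtain ⟨z1, hz1, h1⟩ := hY z0 hz0
  obtain ⟨z2, hz2, h2⟩ := hY z1 hz1
  obtain ⟨x, hx2, hx0⟩ := exists_mem_of_lt (low_lt_low h1 h2)
  have e1 : z0 < emb hc x := lt_emb hc hx0
  have e2 : emb hc x ≤ z2 := emb_le hc hx2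
  have e3 : z < emb hc x := h0.trans e1
  have e4 : Near E z.1 (emb hc x).1 := by
    rcases e2.lt_or_eq with h | h
    · exact (betweenZ hG (hYn z2 hz2 (e3.trans h)) e3 h).1
    · rw [h]
      exact hYn z2 hz2 (h ▸ e3)
  let L : LowerSet X := sSup (low '' Y)
  have hL : ∀ u, u ∈ L ↔ ∃ z' ∈ Y, u ∈ low z' := by
    intro u
    simp only [L, LowerSet.mem_sSup_iff, Set.mem_image, exists_exists_and_eq_and]
  have hxL : ∀ u ∈ L, x ≤ u → (x, u) ∈ E := by
    intro u hu hxu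
    obtain ⟨z', hz', huz⟩ := (hL u).1 hu
    rcases hxu.lt_or_eq with h | h
    · have e5 : emb hc x < emb hc u := emb_strictMono hc h
      have e6 : emb hc u ≤ z' := emb_le hc huz
      have e7 : Near E z.1 (emb hc u).1 := by
        rcases e6.lt_or_eq with h | h
        · exact (betweenZ hG (hYn z' hz' ((e3.trans e5).trans h)) (e3.trans e5) h).1
        · rw [h]
          exact hYn z' hz' (h ▸ (e3.trans e5))
      exact (near_emb_iff hc).1 (betweenZ hG e7 e3 e5).2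
    · rw [← h]
      exact C.diag E hE x
  have hxL' : x ∈ L := (hL x).2 ⟨z2, hz2, hx2⟩
  let hi : Z C := ⟨toLex (L, false), x, by simpa [inn] using hxL', E, hE, fun u hu => by
    simp only [tl, inn, ofLex_toLex] at hu
    exact hxL u hu.1 hu.2⟩
  refine ⟨hi, (e3.trans_le (emb_le hc (z := hi) hxL')).le, Or.inr ?_, ?_⟩
  · obtain ⟨a, ha, b, hb, h3⟩ := e4
    have hbx : tl (emb hc x).1 b x := by
      simp only [inn, emb, ofLex_toLex, LowerSet.mem_Iic_iff] at hb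
      simp only [tl, inn, emb, ofLex_toLex, LowerSet.mem_Iic_iff]
      exact ⟨le_rfl, hb⟩
    refine ⟨a, ha, x, by simpa [inn, hi] using hxL', fun u v hu hv => ⟨x, h3 u x hu hbx, ?_⟩⟩
    simp only [tl, inn, hi, ofLex_toLex] at hv
    exact hxL v hv.1 hv.2
  · intro z' h3 h4
    obtain ⟨z'', h5, h6⟩ := hY z' ⟨h3, h4⟩
    change z'.1 ≤ toLex (L, false)
    rw [Prod.Lex.le_iff]
    have h7 : ∀ w ∈ Y, low w ≤ L := fun w hw u hu => (hL u).2 ⟨w, hw, hu⟩
    rcases lt_cases (show z'.1 < z''.1 from h6) with h8 | ⟨h8, h9, h10⟩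
    · exact Or.inl (h8.trans_le (h7 z'' h5))
    · rcases (h7 z' ⟨h3, h4⟩).lt_or_eq with h11 | h11
      · exact Or.inl h11
      · exact Or.inr ⟨h11, by rw [h9]; exact Bool.false_le _⟩

theorem exists_lo (hc : Connected C) {E : Set (X × X)} (hE : E ∈ C.ent) (hG : Good E) (z : Z C) :
    ∃ lo : Z C, lo ≤ z ∧
      (z = lo ∨ Near {p : X × X | ∃ w, (p.1, w) ∈ E ∧ (w, p.2) ∈ E} z.1 lo.1) ∧
      ∀ z', z' ≤ z → (z = z' ∨ Near E z.1 z'.1) → lo ≤ z' := by
  have hsub : E ⊆ {p : X × X | ∃ w, (p.1, w) ∈ E ∧ (w, p.2) ∈ E} :=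
    fun p hp => ⟨p.2, hp, C.diag E hE _⟩
  by_cases hmax : ∃ lo : Z C, (lo ≤ z ∧ (z = lo ∨ Near E z.1 lo.1)) ∧
      ∀ z', z' ≤ z → (z = z' ∨ Near E z.1 z'.1) → lo ≤ z'
  · obtain ⟨lo, ⟨h1, h2⟩, h3⟩ := hmax
    exact ⟨lo, h1, h2.imp id fun h => h.mono hsub, h3⟩
  push Not at hmax
  let Y : Set (Z C) := {z' | z' ≤ z ∧ (z = z' ∨ Near E z.1 z'.1)}
  have hY : ∀ z' ∈ Y, ∃ z'' ∈ Y, z'' < z' := by
    rintro z' ⟨h1, h2⟩
    obtain ⟨z'', h3, h4, h5⟩ := hmax z' ⟨h1, h2⟩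
    exact ⟨z'', ⟨h3, h4⟩, h5⟩
  have hYn : ∀ z' ∈ Y, z' < z → Near E z'.1 z.1 := fun z' hz' h =>
    (hz'.2.resolve_left h.ne').symm' hG
  obtain ⟨z0, hz0, h0⟩ := hY z ⟨le_rfl, Or.inl rfl⟩
  obtain ⟨z1, hz1, h1⟩ := hY z0 hz0
  obtain ⟨z2, hz2, h2⟩ := hY z1 hz1
  obtain ⟨x, hx0, hx2⟩ := exists_mem_of_lt (low_lt_low h2 h1)
  have e1 : emb hc x ≤ z0 := emb_le hc hx0
  have e2 : z2 < emb hc x := lt_emb hc hx2
  have e3 : emb hc x < z := e1.trans_lt h0
  have e4 : Near E (emb hc x).1 z.1 := (betweenZ hG (hYn z2 hz2 (e2.trans e3)) e2 e3).2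
  let L : LowerSet X := sInf (low '' Y)
  have hL : ∀ u, u ∉ L ↔ ∃ z' ∈ Y, u ∉ low z' := by
    intro u
    simp only [L, LowerSet.mem_sInf_iff, Set.mem_image, forall_exists_index, and_imp,
      forall_apply_eq_imp_iff₂]
    push Not
    rfl
  have hxL : ∀ u, u ∉ L → u ≤ x → (x, u) ∈ E := by
    intro u hu hxu
    obtain ⟨z', hz', huz⟩ := (hL u).1 hu
    rcases hxu.lt_or_eq with h | h
    · have e5 : emb hc u < emb hc x := emb_strictMono hc h
      have e6 : z' < emb hc u := lt_emb hc huz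
      have e7 : Near E (emb hc u).1 z.1 :=
        (betweenZ hG (hYn z' hz' ((e6.trans e5).trans e3)) e6 (e5.trans e3)).2
      exact hG.symm _ _ ((near_emb_iff hc).1 (betweenZ hG e7 e5 e3).1)
    · rw [h]
      exact C.diag E hE x
  have hxL' : x ∉ L := (hL x).2 ⟨z2, hz2, hx2⟩
  let lo : Z C := ⟨toLex (L, true), x, by simpa [inn] using hxL', E, hE, fun u hu => by
    simp only [tl, inn, ofLex_toLex] at hu
    exact hxL u hu.1 hu.2⟩
  refine ⟨lo, ((lt_emb hc (z := lo) hxL').trans e3).le, Or.inr ?_, ?_⟩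
  · obtain ⟨a, ha, b, hb, h3⟩ := e4.symm' hG
    have hbx : tl (emb hc x).1 b x := by
      simp only [inn, emb, ofLex_toLex, LowerSet.mem_Iic_iff] at hb
      simp only [tl, inn, emb, ofLex_toLex, LowerSet.mem_Iic_iff]
      exact ⟨le_rfl, hb⟩
    refine ⟨a, ha, x, by simpa [inn, lo] using hxL', fun u v hu hv => ⟨x, h3 u x hu hbx, ?_⟩⟩
    simp only [tl, inn, lo, ofLex_toLex] at hv
    exact hxL v hv.1 hv.2
  · intro z' h3 h4
    obtain ⟨z'', h5, h6⟩ := hY z' ⟨h3, h4⟩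
    change toLex (L, true) ≤ z'.1
    rw [Prod.Lex.le_iff]
    have h7 : ∀ w ∈ Y, L ≤ low w := by
      intro w hw u hu
      by_contra hcon
      exact (hL u).2 ⟨w, hw, hcon⟩ hu
    rcases lt_cases (show z''.1 < z'.1 from h6) with h8 | ⟨h8, h9, h10⟩
    · exact Or.inl ((h7 z'' h5).trans_lt h8)
    · rcases (h7 z' ⟨h3, h4⟩).lt_or_eq with h11 | h11
      · exact Or.inl h11
      · exact Or.inr ⟨h11, by rw [h10]; exact Bool.le_true _⟩

theorem intervalBaseZ (hc : Connected C) (h : Compatible C) : HasIntervalBase (coarseZ C) := by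
  classical
  choose hi hhi1 hhi2 hhi3 using fun (E : {E : Set (X × X) // E ∈ C.ent ∧ Good E}) (z : Z C) =>
    exists_hi hc E.2.1 E.2.2 z
  choose lo hlo1 hlo2 hlo3 using fun (E : {E : Set (X × X) // E ∈ C.ent ∧ Good E}) (z : Z C) =>
    exists_lo hc E.2.1 E.2.2 z
  let W : {E : Set (X × X) // E ∈ C.ent ∧ Good E} → Set (Z C × Z C) := fun E =>
    {p | lo E p.1 ≤ p.2 ∧ p.2 ≤ hi E p.1}
  refine ⟨Set.range W, ?_, ?_, ?_⟩
  · rintro S ⟨⟨E, hE, hG⟩, rfl⟩
    obtain ⟨D, hD, hED, hGD⟩ := exists_good C h (C.comp E hE E hE)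
    refine ⟨fun z => ⟨hlo1 _ z, hhi1 _ z⟩, D, hD, ?_⟩
    rintro z z' ⟨h1, h2⟩
    dsimp only at h1 h2
    rcases lt_trichotomy z z' with h3 | h3 | h3
    · right
      have h4 := hhi2 ⟨E, hE, hG⟩ z
      have h5 := (h4.resolve_left (h3.trans_le h2).ne).mono hED
      rcases h2.lt_or_eq with h6 | h6
      · exact (betweenZ hGD h5 h3 h6).1
      · rw [h6]
        exact h5
    · exact Or.inl h3
    · right
      have h4 := hlo2 ⟨E, hE, hG⟩ z
      have h5 := ((h4.resolve_left (h1.trans_lt h3).ne').mono hED).symm' hGD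
      rcases h1.lt_or_eq with h6 | h6
      · exact (betweenZ hGD h5 h6 h3).2.symm' hGD
      · rw [← h6]
        exact h5.symm' hGD
  · rintro S ⟨hS, E, hE, hSE⟩
    obtain ⟨D, hD, hED, hGD⟩ := exists_good C h hE
    refine ⟨_, ⟨⟨D, hD, hGD⟩, rfl⟩, ?_⟩
    rintro ⟨z, z'⟩ hz
    have h1 : z = z' ∨ Near D z.1 z'.1 := (hSE z z' hz).imp id fun h => h.mono hED
    constructor
    · change lo _ z ≤ z'
      rcases le_total z z' with h2 | h2
      · exact (hlo1 _ z).trans h2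
      · exact hlo3 ⟨D, hD, hGD⟩ z z' h2 h1
    · change z' ≤ hi _ z
      rcases le_total z z' with h2 | h2
      · exact hhi3 ⟨D, hD, hGD⟩ z z' h2 h1
      · exact h2.trans (hhi1 _ z)
  · rintro S ⟨E, rfl⟩ z
    exact ⟨lo E z, hi E z, (hlo1 E z).trans (hhi1 E z), rfl⟩

end

/-- **MP_54b381_gt, Q1 (positive answer)**: every linearly ordered coarse space is asymorphic, by an
order preserving map, to a subspace of a linearly ordered coarse space with an interval base. -/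
theorem result (X : Type u) [LinearOrder X] (C : Coarse X) (hc : Connected C)
    (h : Compatible C) :
    ∃ (Z : Type u) (_ : LinearOrder Z) (D : Coarse Z) (f : X → Z), Connected D ∧ Compatible D ∧
      HasIntervalBase D ∧ IsAsymorphicEmbedding C D f ∧ StrictMono f := by
  refine ⟨Z C, inferInstance, coarseZ C, emb hc, connectedZ hc, compatibleZ h, intervalBaseZ hc h,
    ⟨(emb_strictMono hc).injective, ?_, ?_⟩, emb_strictMono hc⟩
  · intro E hE
    exact ⟨{p | p.1 = p.2 ∨ Near E p.1.1 p.2.1}, ⟨fun _ => Or.inl rfl, E, hE, fun _ _ h => h⟩,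
      fun x y hxy => Or.inr ((near_emb_iff hc).2 hxy)⟩
  · rintro S ⟨hS, E, hE, hSE⟩
    refine ⟨E, hE, fun x y hxy => ?_⟩
    rcases hSE _ _ hxy with h1 | h1
    · rw [(emb_strictMono hc).injective h1]
      exact C.diag E hE y
    · exact (near_emb_iff hc).1 h1

end Pool.Agent.Results.MP_54b381_gt.IntervalBase
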